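import Pool.Agent.Helper86.EN.Goals4
import Pool.Agent.Helper44.EN2.POI
import Pool.Agent.Helper59.EN2.DE

/-!
# EN4-TRC4: traces
-/

set_option autoImplicit false

open Complex MeasureTheory Set Filter Topology ContDiff

namespace Pool.Agent.Helper66.EN4.TRC4

open Pool.Agent.Helper86.EN
open Pool.Agent.Helper44.EN2.POI (lineX lineY dX dY)

/-! ### one variable -/

section one

/-- Cauchy–Schwarz for continuous functions on an interval -/
lemma cs {f g : ℝ → ℝ} (hf : Continuous f) (hg : Continuous g) (l r : ℝ) :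
    (∫ s in Icc l r, |f s * g s|) ^ 2 ≤ (∫ s in Icc l r, f s ^ 2) * ∫ s in Icc l r, g s ^ 2 := by
  have hi : ∀ {F : ℝ → ℝ}, Continuous F → IntegrableOn F (Icc l r) := fun hF =>
    hF.continuousOn.integrableOn_compact isCompact_Icc
  set A := ∫ s in Icc l r, f s ^ 2 with hA
  set B := ∫ s in Icc l r, |f s * g s| with hB
  set G := ∫ s in Icc l r, g s ^ 2 with hG
  have hA0 : 0 ≤ A := integral_nonneg fun s => sq_nonneg _
  have hG0 : 0 ≤ G := integral_nonneg fun s => sq_nonneg _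
  have hB0 : 0 ≤ B := integral_nonneg fun s => abs_nonneg _
  have key : ∀ t : ℝ, 0 ≤ A * (t * t) - 2 * t * B + G := by
    intro t
    have h1 : 0 ≤ ∫ s in Icc l r, (t * |f s| - |g s|) ^ 2 := integral_nonneg fun s => sq_nonneg _
    have h2 : ∀ s, (t * |f s| - |g s|) ^ 2 = t * t * f s ^ 2 - 2 * t * |f s * g s| + g s ^ 2 := by
      intro s
      rw [abs_mul, sub_sq, mul_pow, sq_abs, sq_abs]
      ring
    simp only [h2] at h1
    rw [integral_add, integral_sub, integral_const_mul, integral_const_mul] at h1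
    · linarith
    · exact (hi (hf.pow 2)).const_mul _
    · exact (hi (hf.mul hg).abs).const_mul _
    · exact ((hi (hf.pow 2)).const_mul _).sub ((hi (hf.mul hg).abs).const_mul _)
    · exact hi (hg.pow 2)
  have h3 := discrim_le_zero (a := A) (b := -2 * B) (c := G) fun t => by
    have := key t
    linarith
  unfold discrim at h3
  nlinarith

lemma ftc {g : ℝ → ℝ} (hg : ContDiff ℝ 1 g) {l r a b : ℝ} (ha : a ∈ Icc l r)
    (hb : b ∈ Icc l r) : |g a - g b| ≤ ∫ s in Icc l r, |deriv g s| := by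
  have hd : Continuous (deriv g) := hg.continuous_deriv le_rfl
  have key : ∀ {a b : ℝ}, a ∈ Icc l r → b ∈ Icc l r → b ≤ a →
      |g a - g b| ≤ ∫ s in Icc l r, |deriv g s| := by
    intro a b ha hb hab
    have e0 : ∫ s in b..a, deriv g s = g a - g b :=
      intervalIntegral.integral_deriv_eq_sub (fun x _ => (hg.differentiable one_ne_zero) x)
        (hd.intervalIntegrable _ _)
    rw [← e0]
    refine (intervalIntegral.abs_integral_le_integral_abs hab).trans ?_
    rw [intervalIntegral.integral_of_le hab]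
    refine setIntegral_mono_set (hd.abs.continuousOn.integrableOn_compact isCompact_Icc)
      (Eventually.of_forall fun s => abs_nonneg _) ?_
    exact LE.le.eventuallyLE fun s hs => ⟨hb.1.trans hs.1.le, hs.2.trans ha.2⟩
  rcases le_total b a with h | h
  · exact key ha hb h
  · rw [abs_sub_comm]
    exact key hb ha h

lemma one {g : ℝ → ℝ} (hg : ContDiff ℝ 1 g) {l r a b : ℝ} (ha : a ∈ Icc l r)
    (hb : b ∈ Icc l r) : (g a - g b) ^ 2 ≤ (r - l) * ∫ s in Icc l r, deriv g s ^ 2 := by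
  have hd : Continuous (deriv g) := hg.continuous_deriv le_rfl
  have h1 := ftc hg ha hb
  have h2 := cs (f := fun _ => 1) continuous_const hd l r
  simp only [one_mul, one_pow] at h2
  have hlr : l ≤ r := ha.1.trans ha.2
  have h3 : ∫ _ in Icc l r, (1 : ℝ) = r - l := by
    rw [setIntegral_const, measureReal_def, Real.volume_Icc,
      ENNReal.toReal_ofReal (by linarith)]
    simp
  rw [h3] at h2
  calc (g a - g b) ^ 2 = |g a - g b| ^ 2 := (sq_abs _).symm
    _ ≤ (∫ s in Icc l r, |deriv g s|) ^ 2 := pow_le_pow_left₀ (abs_nonneg _) h1 2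
    _ ≤ _ := h2

/-- the bound of the fourth power -/
lemma four {g : ℝ → ℝ} (hg : ContDiff ℝ 1 g) {l r x : ℝ} (hlr : l < r) (hx : x ∈ Icc l r) :
    g x ^ 4 ≤ 2 * ((∫ s in Icc l r, g s ^ 2) / (r - l)) ^ 2 +
      8 * ((∫ s in Icc l r, g s ^ 2) * ∫ s in Icc l r, deriv g s ^ 2) := by
  have hd : Continuous (deriv g) := hg.continuous_deriv le_rfl
  set A := ∫ s in Icc l r, g s ^ 2 with hA
  set G := ∫ s in Icc l r, deriv g s ^ 2 with hG
  set B := ∫ s in Icc l r, |g s * deriv g s| with hB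
  have hcs : B ^ 2 ≤ A * G := cs hg.continuous hd l r
  have hB0 : 0 ≤ B := integral_nonneg fun s => abs_nonneg _
  have hA0 : 0 ≤ A := integral_nonneg fun s => sq_nonneg _
  have hvol : volume (Icc l r) = ENNReal.ofReal (r - l) := Real.volume_Icc
  have hrl : 0 < r - l := by linarith
  obtain ⟨x', hx', hle⟩ := exists_le_setAverage (μ := volume) (s := Icc l r)
    (f := fun s => g s ^ 2) (by rw [hvol]; simpa using hrl)
    (by rw [hvol]; exact ENNReal.ofReal_ne_top)
    ((hg.continuous.pow 2).continuousOn.integrableOn_compact isCompact_Icc)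
  rw [setAverage_eq, smul_eq_mul, measureReal_def, hvol, ENNReal.toReal_ofReal hrl.le,
    inv_mul_eq_div] at hle
  have hh : ContDiff ℝ 1 fun s => g s ^ 2 := hg.pow 2
  have h1 := ftc hh hx hx'
  have h2 : ∀ s, deriv (fun s => g s ^ 2) s = 2 * (g s * deriv g s) := by
    intro s
    have e1 := ((hg.differentiable one_ne_zero) s).hasDerivAt.pow 2
    have e2 : deriv (fun s => g s ^ 2) s = _ := e1.deriv
    rw [e2]
    simp
    ring
  have h3 : ∫ s in Icc l r, |deriv (fun s => g s ^ 2) s| = 2 * B := by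
    rw [hB, ← integral_const_mul]
    congr 1
    funext s
    rw [h2, abs_mul]
    simp
  rw [h3] at h1
  have h4 : g x ^ 2 ≤ A / (r - l) + 2 * B := by
    have := (abs_le.1 h1).2
    linarith
  have h5 : 0 ≤ A / (r - l) := by positivity
  have h6 : (g x ^ 2) ^ 2 ≤ (A / (r - l) + 2 * B) ^ 2 := pow_le_pow_left₀ (sq_nonneg _) h4 2
  have h7 : (A / (r - l) + 2 * B) ^ 2 ≤ 2 * (A / (r - l)) ^ 2 + 8 * B ^ 2 := by
    nlinarith [sq_nonneg (A / (r - l) - 2 * B)]
  calc g x ^ 4 = (g x ^ 2) ^ 2 := by ring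
    _ ≤ _ := h6.trans (h7.trans (by linarith))

end one

/-! ### the square -/

section sq

variable {z₀ : ℂ} {δ : ℝ}

lemma sq_eq (z₀ : ℂ) (δ : ℝ) : Sq z₀ δ = Complex.measurableEquivRealProd ⁻¹'
    (Icc (z₀.re - δ) (z₀.re + δ) ×ˢ Icc (z₀.im - δ) (z₀.im + δ)) := by
  ext z
  simp only [Sq, mem_ofPred_eq, mem_preimage, mem_prod, mem_Icc, abs_le,
    Complex.measurableEquivRealProd_apply]
  constructor
  · rintro ⟨⟨h1, h2⟩, h3, h4⟩
    exact ⟨⟨by linarith, by linarith⟩, by linarith, by linarith⟩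
  · rintro ⟨⟨h1, h2⟩, h3, h4⟩
    exact ⟨⟨by linarith, by linarith⟩, by linarith, by linarith⟩

lemma sq_closed (z₀ : ℂ) (δ : ℝ) : IsClosed (Sq z₀ δ) := by
  have h1 : IsClosed {z : ℂ | |z.re - z₀.re| ≤ δ} :=
    isClosed_le (by fun_prop) continuous_const
  have h2 : IsClosed {z : ℂ | |z.im - z₀.im| ≤ δ} :=
    isClosed_le (by fun_prop) continuous_const
  exact h1.inter h2

lemma sq_compact (z₀ : ℂ) (δ : ℝ) : IsCompact (Sq z₀ δ) := by
  refine Metric.isCompact_of_isClosed_isBounded (sq_closed z₀ δ) ?_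
  refine (Metric.isBounded_closedBall (x := z₀) (r := δ + δ)).subset fun z hz => ?_
  rw [Metric.mem_closedBall, dist_eq_norm]
  refine (Complex.norm_le_abs_re_add_abs_im _).trans ?_
  rw [Complex.sub_re, Complex.sub_im]
  exact add_le_add hz.1 hz.2

lemma mk_cont : Continuous fun p : ℝ × ℝ => (⟨p.1, p.2⟩ : ℂ) :=
  Complex.equivRealProdCLM.symm.continuous

lemma fub (F : ℂ → ℝ) (hF : Continuous F) (z₀ : ℂ) (δ : ℝ) :
    (∫ z in Sq z₀ δ, F z) = (∫ y in Icc (z₀.im - δ) (z₀.im + δ),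
      ∫ x in Icc (z₀.re - δ) (z₀.re + δ), F ⟨x, y⟩) ∧
    (∫ z in Sq z₀ δ, F z) = ∫ x in Icc (z₀.re - δ) (z₀.re + δ),
      ∫ y in Icc (z₀.im - δ) (z₀.im + δ), F ⟨x, y⟩ := by
  have hme := Complex.measurableEquivRealProd.measurableEmbedding
  have hmp := Complex.volume_preserving_equiv_real_prod
  have h1 : (∫ z in Sq z₀ δ, F z) = ∫ p in Icc (z₀.re - δ) (z₀.re + δ) ×ˢ
      Icc (z₀.im - δ) (z₀.im + δ), F ⟨p.1, p.2⟩ := by
    rw [← hmp.setIntegral_preimage_emb hme, ← sq_eq]
    rfl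
  have hFc : Continuous fun p : ℝ × ℝ => F ⟨p.1, p.2⟩ := hF.comp mk_cont
  have h2 : IntegrableOn (fun p : ℝ × ℝ => F ⟨p.1, p.2⟩) (Icc (z₀.re - δ) (z₀.re + δ) ×ˢ
      Icc (z₀.im - δ) (z₀.im + δ)) (volume.prod volume) :=
    hFc.continuousOn.integrableOn_compact (isCompact_Icc.prod isCompact_Icc)
  rw [h1]
  constructor
  · have h3 := h2
    rw [IntegrableOn, ← Measure.prod_restrict] at h3
    have h4 := integral_prod_symm _ h3
    rw [Measure.prod_restrict] at h4
    exact h4
  · exact setIntegral_prod _ h2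

lemma par_cont {F : ℝ → ℝ → ℝ} (hF : Continuous (Function.uncurry F)) (l r : ℝ) :
    Continuous fun x => ∫ y in Icc l r, F x y :=
  continuous_parametric_integral_of_continuous hF isCompact_Icc

end sq

/-! ### the measure -/

section meas

lemma l2 {m : Measure ℂ} [IsFiniteMeasure m] {Q : Set ℂ} (hQ : IsCompact Q) {f : ℂ → ℝ}
    (hf : Continuous f) :
    (∫ z in Q, f z ∂m) ^ 2 ≤ (m Q).toReal * ∫ z in Q, f z ^ 2 ∂m := by
  set M := (m Q).toReal with hM
  set J := ∫ z in Q, f z ∂m with hJ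
  set S := ∫ z in Q, f z ^ 2 ∂m with hS
  have hM0 : 0 ≤ M := ENNReal.toReal_nonneg
  have i1 : IntegrableOn f Q m := hf.continuousOn.integrableOn_compact hQ
  have i2 : IntegrableOn (fun z => f z ^ 2) Q m := (hf.pow 2).continuousOn.integrableOn_compact hQ
  have i3 : IntegrableOn (fun _ : ℂ => J ^ 2) Q m :=
    continuousOn_const.integrableOn_compact hQ
  have h1 : 0 ≤ ∫ z in Q, (M * f z - J) ^ 2 ∂m := integral_nonneg fun z => sq_nonneg _
  have h2 : ∀ z, (M * f z - J) ^ 2 = M ^ 2 * f z ^ 2 - 2 * M * J * f z + J ^ 2 := fun z => by ring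
  simp only [h2] at h1
  have j1 : IntegrableOn (fun z => M ^ 2 * f z ^ 2) Q m := i2.const_mul _
  have j2 : IntegrableOn (fun z => 2 * M * J * f z) Q m := i1.const_mul _
  have j3 : IntegrableOn (fun z => M ^ 2 * f z ^ 2 - 2 * M * J * f z) Q m := j1.sub j2
  rw [integral_add j3 i3, integral_sub j1 j2, integral_const_mul, integral_const_mul,
    setIntegral_const, measureReal_def, smul_eq_mul] at h1
  rcases hM0.eq_or_lt with h0 | h0
  · have hz : m Q = 0 := by
      have := h0.symm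
      rw [hM, ENNReal.toReal_eq_zero_iff] at this
      exact this.resolve_right (measure_ne_top m Q)
    have : J = 0 := by
      rw [hJ, setIntegral_measure_zero _ hz]
    rw [this, ← h0]
    simp
  · have h3 : 0 ≤ M * (M * S - J ^ 2) := by nlinarith
    have h4 := nonneg_of_mul_nonneg_right h3 h0
    linarith

lemma marg {m : Measure ℂ} [IsFiniteMeasure m] {C : ℝ} (hC : 0 ≤ C) (hm : BMa m C) {Q : Set ℂ}
    (hQ : IsCompact Q) {l r : ℝ} (hQJ : ∀ z ∈ Q, z.im ∈ Icc l r) {G : ℝ → ℝ}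
    (hG : Continuous G) (hG0 : ∀ y, 0 ≤ G y) :
    ∫ z in Q, G z.im ∂m ≤ C * ∫ y in Icc l r, G y := by
  have him : Measurable Complex.im := Complex.measurable_im
  have hle := Pool.Agent.Helper59.EN2.DE.le_vol (m.map Complex.im) C hC (by
    intro a b hab
    rw [Measure.map_apply him measurableSet_Icc]
    exact hm a b hab)
  set f : ℝ → ℝ := (Icc l r).indicator G with hf
  have hf0 : ∀ y, 0 ≤ f y := fun y => indicator_nonneg (fun y _ => hG0 y) y
  have hfi : Integrable f volume := by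
    rw [hf, integrable_indicator_iff measurableSet_Icc]
    exact hG.continuousOn.integrableOn_compact isCompact_Icc
  have hfC : Integrable f (C.toNNReal • (volume : Measure ℝ)) := hfi.smul_measure_nnreal
  have hfm : Integrable f (m.map Complex.im) := hfC.mono_measure hle
  have hfc : Integrable (fun z : ℂ => f z.im) m :=
    (integrable_map_measure hfm.1 him.aemeasurable).1 hfm
  calc ∫ z in Q, G z.im ∂m = ∫ z in Q, f z.im ∂m := by
        refine setIntegral_congr_fun hQ.isClosed.measurableSet fun z hz => ?_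
        show G z.im = f z.im
        rw [hf, indicator_of_mem (hQJ z hz)]
    _ ≤ ∫ z, f z.im ∂m := setIntegral_le_integral hfc (Eventually.of_forall fun z => hf0 _)
    _ = ∫ y, f y ∂(m.map Complex.im) := by
        rw [integral_map him.aemeasurable hfm.1]
    _ ≤ ∫ y, f y ∂(C.toNNReal • (volume : Measure ℝ)) :=
        integral_mono_measure hle (Eventually.of_forall hf0) hfC
    _ = C * ∫ y in Icc l r, G y := by
        rw [integral_smul_nnreal_measure, hf, integral_indicator measurableSet_Icc]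
        show (C.toNNReal : ℝ) * _ = _
        rw [Real.coe_toNNReal C hC]

end meas

theorem t : S_TRC4 := by
  refine ⟨8, by norm_num, ?_⟩
  intro m C κ δ z₀ φ hmf hC hκ hδ hm hmQ hφ
  have h1 : ContDiff ℝ 1 φ := hφ.1.of_le (by exact_mod_cast le_top)
  have hc0 : Continuous φ := h1.continuous
  have hxc : Continuous (dx φ) := (h1.continuous_fderiv one_ne_zero).clm_apply continuous_const
  have hyc : Continuous (dy φ) := (h1.continuous_fderiv one_ne_zero).clm_apply continuous_const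
  set Q := Sq z₀ δ with hQ
  have hQc : IsCompact Q := sq_compact z₀ δ
  set l := z₀.re - δ with hl
  set r := z₀.re + δ with hr
  set l' := z₀.im - δ with hl'
  set r' := z₀.im + δ with hr'
  have hrl : r - l = 2 * δ := by rw [hr, hl]; ring
  have hrl' : r' - l' = 2 * δ := by rw [hr', hl']; ring
  set G : ℝ → ℝ := fun y => ∫ x in Icc l r, dx φ ⟨x, y⟩ ^ 2 with hG
  set H : ℝ → ℝ := fun x => ∫ y in Icc l' r', dy φ ⟨x, y⟩ ^ 2 with hH
  have hmk : Continuous fun p : ℝ × ℝ => (⟨p.1, p.2⟩ : ℂ) := mk_cont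
  have hmk' : Continuous fun p : ℝ × ℝ => (⟨p.2, p.1⟩ : ℂ) := mk_cont.comp continuous_swap
  have hGu : Continuous fun p : ℝ × ℝ => dx φ ⟨p.2, p.1⟩ ^ 2 := (hxc.comp hmk').pow 2
  have hHu : Continuous fun p : ℝ × ℝ => dy φ ⟨p.1, p.2⟩ ^ 2 := (hyc.comp hmk).pow 2
  have hGc : Continuous G := par_cont (F := fun y x => dx φ ⟨x, y⟩ ^ 2) hGu l r
  have hHc : Continuous H := par_cont (F := fun x y => dy φ ⟨x, y⟩ ^ 2) hHu l' r'
  have hG0 : ∀ y, 0 ≤ G y := fun y => integral_nonneg fun s => sq_nonneg _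
  have hH0 : ∀ x, 0 ≤ H x := fun x => integral_nonneg fun s => sq_nonneg _
  set N1 := ∫ y in Icc l' r', G y with hN1
  set N2 := ∫ x in Icc l r, H x with hN2
  set N := ∫ z in Q, (dx φ z ^ 2 + dy φ z ^ 2) with hN
  have hN10 : 0 ≤ N1 := integral_nonneg hG0
  have hN20 : 0 ≤ N2 := integral_nonneg hH0
  have hNN : N = N1 + N2 := by
    have kx : IntegrableOn (fun z => dx φ z ^ 2) Q :=
      (hxc.pow 2).continuousOn.integrableOn_compact hQc
    have ky : IntegrableOn (fun z => dy φ z ^ 2) Q :=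
      (hyc.pow 2).continuousOn.integrableOn_compact hQc
    rw [hN, integral_add kx ky,
      (fub (fun z => dx φ z ^ 2) (hxc.pow 2) z₀ δ).1, (fub (fun z => dy φ z ^ 2) (hyc.pow 2) z₀ δ).2]
  -- the good horizontal line
  have hvol : volume (Icc l' r') = ENNReal.ofReal (2 * δ) := by rw [Real.volume_Icc, hrl']
  have hvol' : volume (Icc l r) = ENNReal.ofReal (2 * δ) := by rw [Real.volume_Icc, hrl]
  obtain ⟨y', hy', hle⟩ := exists_le_setAverage (μ := volume) (s := Icc l' r') (f := G)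
    (by rw [hvol]; simpa using hδ) (by rw [hvol]; exact ENNReal.ofReal_ne_top)
    (hGc.continuousOn.integrableOn_compact isCompact_Icc)
  rw [setAverage_eq, smul_eq_mul, measureReal_def, hvol, ENNReal.toReal_ofReal (by positivity),
    inv_mul_eq_div, le_div_iff₀ (by positivity)] at hle
  have hx0 : z₀.re ∈ Icc l r := ⟨by rw [hl]; linarith, by rw [hr]; linarith⟩
  set c := φ ⟨z₀.re, y'⟩ with hc
  have hgX : ∀ y, ContDiff ℝ 1 fun s : ℝ => φ ⟨s, y⟩ := fun y => h1.comp (lineX y)
  have hgY : ∀ x, ContDiff ℝ 1 fun s : ℝ => φ ⟨x, s⟩ := fun x => h1.comp (lineY x)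
  have p1 : ∀ x ∈ Icc l r, (φ ⟨x, y'⟩ - c) ^ 2 ≤ N1 := by
    intro x hx
    have := one (hgX y') hx hx0
    simp only [dX h1, hrl] at this
    refine this.trans ?_
    rw [mul_comm]
    exact hle
  have p2 : ∀ x, ∀ y ∈ Icc l' r', (φ ⟨x, y⟩ - φ ⟨x, y'⟩) ^ 2 ≤ 2 * δ * H x := by
    intro x y hy
    have := one (hgY x) hy hy'
    simp only [dY h1, hrl'] at this
    exact this
  have p3 : ∀ x ∈ Icc l r, ∀ y ∈ Icc l' r', (φ ⟨x, y⟩ - c) ^ 2 ≤ 2 * N1 + 4 * δ * H x := by
    intro x hx y hy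
    have a1 := p1 x hx
    have a2 := p2 x y hy
    nlinarith [sq_nonneg ((φ ⟨x, y⟩ - φ ⟨x, y'⟩) - (φ ⟨x, y'⟩ - c))]
  set A : ℝ → ℝ := fun y => ∫ x in Icc l r, (φ ⟨x, y⟩ - c) ^ 2 with hA
  have hA0 : ∀ y, 0 ≤ A y := fun y => integral_nonneg fun s => sq_nonneg _
  have hAle : ∀ y ∈ Icc l' r', A y ≤ 4 * δ * N := by
    intro y hy
    have i1 : IntegrableOn (fun x : ℝ => (φ ⟨x, y⟩ - c) ^ 2) (Icc l r) :=
      ((((hgX y).continuous.sub continuous_const).pow 2).continuousOn).integrableOn_compact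
        isCompact_Icc
    have i2 : IntegrableOn (fun x : ℝ => 4 * δ * H x) (Icc l r) :=
      (hHc.continuousOn.integrableOn_compact isCompact_Icc).const_mul _
    have i3 : IntegrableOn (fun _ : ℝ => 2 * N1) (Icc l r) :=
      continuousOn_const.integrableOn_compact isCompact_Icc
    have e1 : A y ≤ ∫ x in Icc l r, (2 * N1 + 4 * δ * H x) :=
      setIntegral_mono_on i1 (i3.add i2) measurableSet_Icc fun x hx => p3 x hx y hy
    rw [integral_add i3 i2, setIntegral_const, integral_const_mul, measureReal_def, hvol',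
      ENNReal.toReal_ofReal (by positivity), smul_eq_mul] at e1
    rw [hNN]
    nlinarith
  have hN0 : 0 ≤ N := by rw [hNN]; positivity
  refine ⟨c, ?_, ?_⟩
  · -- Poincaré
    rw [(fub (fun z => (φ z - c) ^ 2) ((hc0.sub continuous_const).pow 2) z₀ δ).1]
    have i1 : IntegrableOn A (Icc l' r') := by
      refine Continuous.integrableOn_Icc ?_
      have hAu : Continuous fun p : ℝ × ℝ => (φ ⟨p.2, p.1⟩ - c) ^ 2 :=
        ((hc0.comp hmk').sub continuous_const).pow 2
      exact par_cont (F := fun y x => (φ ⟨x, y⟩ - c) ^ 2) hAu l r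
    have i2 : IntegrableOn (fun _ : ℝ => 4 * δ * N) (Icc l' r') :=
      continuousOn_const.integrableOn_compact isCompact_Icc
    have e1 : ∫ y in Icc l' r', A y ≤ ∫ y in Icc l' r', 4 * δ * N :=
      setIntegral_mono_on i1 i2 measurableSet_Icc hAle
    rw [setIntegral_const, measureReal_def, hvol, ENNReal.toReal_ofReal (by positivity),
      smul_eq_mul] at e1
    calc ∫ y in Icc l' r', ∫ x in Icc l r, (φ ⟨x, y⟩ - c) ^ 2 ≤ 2 * δ * (4 * δ * N) := e1
      _ = 8 * δ ^ 2 * N := by ring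
  · -- the trace
    have hgc : ∀ k : ℕ, Continuous fun z => (φ z - c) ^ k := fun k =>
      (hc0.sub continuous_const).pow k
    have hQJ : ∀ z ∈ Q, z.re ∈ Icc l r ∧ z.im ∈ Icc l' r' := by
      intro z hz
      have a1 := abs_le.1 hz.1
      have a2 := abs_le.1 hz.2
      exact ⟨⟨by rw [hl]; linarith, by rw [hr]; linarith⟩, by rw [hl']; linarith,
        by rw [hr']; linarith⟩
    set M := (m Q).toReal with hM
    have hM0 : 0 ≤ M := ENNReal.toReal_nonneg
    have hMC : M ≤ C * (2 * δ) := by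
      have e1 : m Q ≤ ENNReal.ofReal (C * (2 * δ)) := by
        rw [← hrl']
        exact (measure_mono fun z hz => (hQJ z hz).2).trans (hm l' r' (by linarith))
      exact ENNReal.toReal_le_of_le_ofReal (by positivity) e1
    have hMκ : M ≤ κ * δ := ENNReal.toReal_le_of_le_ofReal (by positivity) hmQ
    have hpt : ∀ z ∈ Q, (φ z - c) ^ 4 ≤ 8 * N ^ 2 + 32 * δ * N * G z.im := by
      intro z hz
      obtain ⟨hz1, hz2⟩ := hQJ z hz
      have e1 := four (g := fun s : ℝ => φ ⟨s, z.im⟩ - c) ((hgX z.im).sub contDiff_const)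
        (l := l) (r := r) (by linarith) hz1
      have e2 : ∀ s, deriv (fun s : ℝ => φ ⟨s, z.im⟩ - c) s = dx φ ⟨s, z.im⟩ := by
        intro s
        rw [deriv_sub_const]
        exact dX h1 _ _
      simp only [e2, hrl] at e1
      have e3 : A z.im ≤ 4 * δ * N := hAle z.im hz2
      have e4 := hA0 z.im
      have e5 := hG0 z.im
      have e6 : A z.im / (2 * δ) ≤ 2 * N := by
        rw [div_le_iff₀ (by positivity)]
        linarith
      have e7 : (A z.im / (2 * δ)) ^ 2 ≤ (2 * N) ^ 2 :=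
        pow_le_pow_left₀ (by positivity) e6 2
      have e8 : A z.im * G z.im ≤ 4 * δ * N * G z.im := mul_le_mul_of_nonneg_right e3 e5
      change (φ z - c) ^ 4 ≤ 2 * (A z.im / (2 * δ)) ^ 2 + 8 * (A z.im * G z.im) at e1
      nlinarith
    have hGm : IntegrableOn (fun z : ℂ => G z.im) Q m :=
      (hGc.comp Complex.continuous_im).continuousOn.integrableOn_compact hQc
    have hS4 : ∫ z in Q, (φ z - c) ^ 4 ∂m ≤ 48 * C * δ * N ^ 2 := by
      have i0 : IntegrableOn (fun _ : ℂ => 8 * N ^ 2) Q m :=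
        continuousOn_const.integrableOn_compact hQc
      have e1 : ∫ z in Q, (φ z - c) ^ 4 ∂m ≤ ∫ z in Q, (8 * N ^ 2 + 32 * δ * N * G z.im) ∂m :=
        setIntegral_mono_on ((hgc 4).continuousOn.integrableOn_compact hQc)
          (i0.add (hGm.const_mul _)) hQc.isClosed.measurableSet hpt
      rw [integral_add i0 (hGm.const_mul _), setIntegral_const, integral_const_mul,
        measureReal_def, smul_eq_mul] at e1
      have e2 := marg hC hm hQc (fun z hz => (hQJ z hz).2) hGc hG0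
      have e3 : 32 * δ * N * ∫ z in Q, G z.im ∂m ≤ 32 * δ * N * (C * N) := by
        refine mul_le_mul_of_nonneg_left (e2.trans (mul_le_mul_of_nonneg_left ?_ hC))
          (by positivity)
        rw [hNN]
        linarith
      have e4 : M * (8 * N ^ 2) ≤ C * (2 * δ) * (8 * N ^ 2) :=
        mul_le_mul_of_nonneg_right hMC (by positivity)
      calc ∫ z in Q, (φ z - c) ^ 4 ∂m ≤ _ := e1
        _ ≤ C * (2 * δ) * (8 * N ^ 2) + 32 * δ * N * (C * N) := add_le_add e4 e3
        _ = 48 * C * δ * N ^ 2 := by ring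
    set S2 := ∫ z in Q, (φ z - c) ^ 2 ∂m with hS2
    have hS20 : 0 ≤ S2 := integral_nonneg fun z => sq_nonneg _
    have hS2' : S2 ^ 2 ≤ M * ∫ z in Q, (φ z - c) ^ 4 ∂m := by
      have := l2 (m := m) hQc (hgc 2)
      simp only [← pow_mul] at this
      exact this
    have hS40 : 0 ≤ ∫ z in Q, (φ z - c) ^ 4 ∂m := integral_nonneg fun z => by positivity
    have hb : S2 ≤ 7 * √(C * κ) * δ * N := by
      refine abs_le_of_sq_le_sq' ?_ (by positivity) |>.2
      calc S2 ^ 2 ≤ M * ∫ z in Q, (φ z - c) ^ 4 ∂m := hS2'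
        _ ≤ (κ * δ) * (48 * C * δ * N ^ 2) := mul_le_mul hMκ hS4 hS40 (by positivity)
        _ = 48 * ((C * κ) * (δ ^ 2 * N ^ 2)) := by ring
        _ ≤ 49 * ((C * κ) * (δ ^ 2 * N ^ 2)) := by
            have : 0 ≤ (C * κ) * (δ ^ 2 * N ^ 2) := by positivity
            linarith
        _ = (7 * √(C * κ) * δ * N) ^ 2 := by
            rw [mul_pow, mul_pow, mul_pow, Real.sq_sqrt (by positivity)]
            ring
    have hS1 := l2 (m := m) hQc (f := fun z => |φ z - c|) (hc0.sub continuous_const).abs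
    simp only [sq_abs] at hS1
    have hS10 : 0 ≤ ∫ z in Q, |φ z - c| ∂m := integral_nonneg fun z => abs_nonneg _
    refine abs_le_of_sq_le_sq' ?_ (by positivity) |>.2
    calc (∫ z in Q, |φ z - c| ∂m) ^ 2 ≤ M * S2 := hS1
      _ ≤ M * (7 * √(C * κ) * δ * N) := mul_le_mul_of_nonneg_left hb hM0
      _ ≤ 64 * √(C * κ) * δ * M * N := by
          have : 0 ≤ √(C * κ) * δ * M * N := by positivity
          nlinarith
      _ = (8 * √(√(C * κ)) * √δ * √M * √N) ^ 2 := by
          rw [mul_pow, mul_pow, mul_pow, mul_pow, Real.sq_sqrt (by positivity),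
            Real.sq_sqrt hδ.le, Real.sq_sqrt hM0, Real.sq_sqrt hN0]
          ring

end Pool.Agent.Helper66.EN4.TRC4
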